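import Pool.Agent.MWH.StmtsA

/-!
# Row SHW of squad MWH: only the shapes matter
-/

namespace Pool.Agent.MWH.H13

open Pool.Agent.Helper14_MV Pool.Agent.Helper2_MV Pool.Agent.MVO Pool.Agent.MWL Pool.Agent.MWS
open Pool.Agent.MWH

theorem shw_aux (nfe : NfeStmt) (okw : OkwStmt) (β : FIC) (hH : BaseH β) (k : ℕ)
    (a b a' b' : ℕ → ℕ) (i : ℕ) (V : Vd k a b i) (V' : Vd k a' b' i) (ha : Sh k a a')
    (hb : Sh k b b') (s : Stt) (vs : Vs a b i s) :
    RR β (asm k (W a b i s)) (asm k (W a' b' i s)) := by
  have vs' : Vs a' b' i s := by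
    intro h
    have h1 := ha i V.ik
    have h2 := hb i V.ik
    rcases vs h with h3 | h3
    · left; omega
    · right; omega
  obtain ⟨o1, -, c1, m1, f1, g1⟩ := okw k a b i s V vs
  obtain ⟨o2, -, c2, m2, f2, g2⟩ := okw k a' b' i s V' vs'
  refine nfe β hH k (W a b i s) (W a' b' i s) o1 o2 ?_ ?_
  · intro c _ j hj
    show (W a b i s j).count c = (W a' b' i s j).count c ∨
      (2 ≤ (W a b i s j).count c ∧ 2 ≤ (W a' b' i s j).count c)
    by_cases h0 : c = 0
    · subst h0
      rw [(c1 j).1, (c2 j).1]
      exact ha j hj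
    · by_cases h1 : c = 1
      · subst h1
        rw [(c1 j).2, (c2 j).2]
        exact hb j hj
      · left
        rw [List.count_eq_zero.2 (fun h => ?_), List.count_eq_zero.2 (fun h => ?_)]
        · rcases m2 j c h with h | h
          · exact h0 h
          · exact h1 h
        · rcases m1 j c h with h | h
          · exact h0 h
          · exact h1 h
  · intro i1 hi1 x y hxy hx hy _
    have key : 0 ∈ W a b i s i1 → 1 ∈ W a b i s i1 → i1 = i := by
      intro h0 h1
      by_contra hne
      have p0 := List.count_pos_iff.2 h0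
      have p1 := List.count_pos_iff.2 h1
      rw [(c1 i1).1] at p0
      rw [(c1 i1).2] at p1
      rcases V.un i1 hi1 hne with h | h <;> omega
    rcases m1 i1 x hx with hx0 | hx1
    · rcases m1 i1 y hy with hy0 | hy1
      · exact absurd (hx0.trans hy0.symm) hxy
      · subst hx0 hy1
        have e := key hx hy
        subst e
        exact f1.trans f2.symm
    · rcases m1 i1 y hy with hy0 | hy1
      · subst hx1 hy0
        have e := key hy hx
        subst e
        exact g1.trans g2.symm
      · exact absurd (hx1.trans hy1.symm) hxy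

theorem shw (nfe : NfeStmt) (okw : OkwStmt) : ShwStmt := by
  intro β θ hH hle k a b a' b' i V V' ha hb s s' vs vs'
  have h1 := shw_aux nfe okw β hH k a b a' b' i V V' ha hb s vs
  have h2 := shw_aux nfe okw β hH k a b a' b' i V V' ha hb s' vs'
  refine ⟨h1, ?_⟩
  have k1 : RR θ (asm k (W a b i s)) (asm k (W a' b' i s)) := hle _ _ h1
  have k2 : RR θ (asm k (W a b i s')) (asm k (W a' b' i s')) := hle _ _ h2
  constructor
  · intro h
    exact θ.trans (θ.trans k1.symm h) k2
  · intro h
    exact θ.trans (θ.trans k1 h) k2.symm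

end Pool.Agent.MWH.H13
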